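import Pool.Agent.BXS.Stmts
import Pool.Agent.Helper96_BEC.HZC

/-!
# Squad BXS, row BCU: cut off functions of a box
-/

set_option autoImplicit false

namespace Pool.Agent.BXS.H6

open Set Filter Topology MeasureTheory
open scoped InnerProductSpace ENNReal ContDiff
open Pool.Agent.BE01F Pool.Agent.BEC Pool.Agent.BEC.H96

noncomputable section

/-- one factor -/
def qf (n : ℕ) (a t : ℝ) : ℝ := ph n t * ph n (a - t)

theorem qf_nonneg (n : ℕ) (a t : ℝ) : 0 ≤ qf n a t := mul_nonneg (ph_nonneg _ _) (ph_nonneg _ _)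

theorem qf_le_one (n : ℕ) (a t : ℝ) : qf n a t ≤ 1 :=
  mul_le_one₀ (ph_le_one _ _) (ph_nonneg _ _) (ph_le_one _ _)

theorem qf_smooth (n : ℕ) (a : ℝ) : ContDiff ℝ ((⊤ : ℕ∞) : WithTop ℕ∞) (qf n a) := by
  unfold qf
  exact (ph_smooth n).mul ((ph_smooth n).comp (contDiff_const.sub contDiff_id))

theorem qf_deriv (n : ℕ) (a t : ℝ) :
    HasDerivAt (qf n a) (deriv (ph n) t * ph n (a - t) + ph n t * (deriv (ph n) (a - t) * (-1)))
      t := by
  have hd : ∀ s, HasDerivAt (ph n) (deriv (ph n) s) s := fun s =>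
    (((ph_smooth n).differentiable (by simp)) s).hasDerivAt
  have h2 : HasDerivAt (fun s : ℝ => a - s) (-1) t := by
    have := (hasDerivAt_id t).const_sub a
    exact this
  exact (hd t).mul ((hd (a - t)).comp t h2)

theorem bcu : BcuStmt := by
  classical
  intro N l f C hl hC hf
  obtain ⟨K, hK, hbd⟩ := ph_bd
  have hpr : ∀ i : Fin N, Continuous fun x : E N => x i := fun i =>
    (EuclideanSpace.proj i : E N →L[ℝ] ℝ).continuous
  refine ⟨fun n x => ∏ i, qf n (l i) (x i), N * (2 * ((C + 1) * K)), ?_, ?_, ?_, ?_, ?_⟩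
  · intro n
    apply contDiff_prod
    intro i _
    exact (qf_smooth n (l i)).comp (EuclideanSpace.proj i : E N →L[ℝ] ℝ).contDiff
  · intro n x
    exact ⟨Finset.prod_nonneg fun i _ => qf_nonneg _ _ _,
      Finset.prod_le_one (fun i _ => qf_nonneg _ _ _) fun i _ => qf_le_one _ _ _⟩
  · intro n
    have hn : (0 : ℝ) < (n : ℝ) + 1 := by positivity
    have hn1 : 0 < 1 / ((n : ℝ) + 1) := by positivity
    refine ⟨(WithLp.toLp 2) '' (Set.pi univ fun i : Fin N =>
      Icc (1 / ((n : ℝ) + 1)) (l i - 1 / ((n : ℝ) + 1))), ?_, ?_, ?_⟩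
    · exact (isCompact_univ_pi fun i => isCompact_Icc).image (PiLp.continuous_toLp 2 _)
    · rintro x ⟨y, hy, rfl⟩ i
      have := hy i (mem_univ i)
      show 0 < y i ∧ y i < l i
      exact ⟨lt_of_lt_of_le hn1 this.1, by linarith [this.2]⟩
    · intro x _ hxK
      have h1 : ¬ ∀ i : Fin N, x i ∈ Icc (1 / ((n : ℝ) + 1)) (l i - 1 / ((n : ℝ) + 1)) := by
        intro h
        exact hxK ⟨WithLp.ofLp x, fun i _ => h i, rfl⟩
      push Not at h1
      obtain ⟨i, hi⟩ := h1
      apply Finset.prod_eq_zero (Finset.mem_univ i)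
      unfold qf
      rcases lt_or_ge (x i) (1 / ((n : ℝ) + 1)) with h | h
      · rw [ph_zero n (x i), zero_mul]
        rw [lt_div_iff₀ hn] at h
        linarith
      · have h2 : l i - x i < 1 / ((n : ℝ) + 1) := by
          by_contra hcon
          exact hi ⟨h, by linarith⟩
        rw [ph_zero n (l i - x i), mul_zero]
        rw [lt_div_iff₀ hn] at h2
        linarith
  · intro x hx
    have hT : Tendsto (fun n : ℕ => (n : ℝ) + 1) atTop atTop :=
      tendsto_atTop_add_const_right _ _ tendsto_natCast_atTop_atTop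
    have h1 : ∀ i : Fin N, ∀ᶠ n : ℕ in atTop, 2 ≤ ((n : ℝ) + 1) * (x i / 2) ∧
        2 ≤ ((n : ℝ) + 1) * ((l i - x i) / 2) := by
      intro i
      have ha : 0 < x i / 2 := by linarith [(hx i).1]
      have hb : 0 < (l i - x i) / 2 := by linarith [(hx i).2]
      exact ((hT.atTop_mul_const ha).eventually_ge_atTop 2).and
        ((hT.atTop_mul_const hb).eventually_ge_atTop 2)
    have h2 := eventually_all.2 h1
    filter_upwards [h2] with n hn
    have h3 : ∀ i : Fin N, ∀ᶠ y : E N in 𝓝 x, x i / 2 < y i ∧ (l i - x i) / 2 < l i - y i := by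
      intro i
      have ha : x i / 2 < x i := by linarith [(hx i).1]
      have hb : (l i - x i) / 2 < l i - x i := by linarith [(hx i).2]
      exact ((hpr i).continuousAt.eventually (lt_mem_nhds ha)).and
        (((continuous_const.sub (hpr i)).continuousAt).eventually (lt_mem_nhds hb))
    filter_upwards [eventually_all.2 h3] with y hy
    apply Finset.prod_eq_one
    intro i _
    have hn0 : (0 : ℝ) < (n : ℝ) + 1 := by positivity
    unfold qf
    rw [ph_one n (y i) ((hn i).1.trans (mul_le_mul_of_nonneg_left (hy i).1.le hn0.le)),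
      ph_one n (l i - y i) ((hn i).2.trans (mul_le_mul_of_nonneg_left (hy i).2.le hn0.le)),
      mul_one]
  · intro n x g hx hg
    let q' : Fin N → ℝ := fun i => deriv (ph n) (x i) * ph n (l i - x i) +
      ph n (x i) * (deriv (ph n) (l i - x i) * (-1))
    have hq : ∀ i : Fin N, HasFDerivAt (fun y : E N => qf n (l i) (y i))
        (q' i • (EuclideanSpace.proj i : E N →L[ℝ] ℝ)) x := by
      intro i
      have h1 : HasFDerivAt (fun y : E N => y i) (EuclideanSpace.proj i : E N →L[ℝ] ℝ) x :=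
        (EuclideanSpace.proj i : E N →L[ℝ] ℝ).hasFDerivAt
      exact (qf_deriv n (l i) (x i)).comp_hasFDerivAt x h1
    have hG := HasFDerivAt.finset_prod (u := Finset.univ) (x := x) fun i _ => hq i
    have hgr : ‖gradient (fun y : E N => ∏ i, qf n (l i) (y i)) x‖ =
        ‖fderiv ℝ (fun y : E N => ∏ i, qf n (l i) (y i)) x‖ := by
      unfold gradient
      exact LinearIsometryEquiv.norm_map _ _
    rw [hgr, hG.fderiv]
    have hpn : ∀ i : Fin N, ‖(EuclideanSpace.proj i : E N →L[ℝ] ℝ)‖ ≤ 1 := by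
      intro i
      apply ContinuousLinearMap.opNorm_le_bound _ zero_le_one
      intro y
      rw [one_mul]
      exact PiLp.norm_apply_le y i
    have hqb : ∀ i : Fin N, |g| * |q' i| ≤ 2 * ((C + 1) * K) := by
      intro i
      have h1 := hbd n (x i) g C (hx i).1 hC (hg.trans (by linarith [(hf x hx i).1]))
      have h2 := hbd n (l i - x i) g C (by linarith [(hx i).2]) hC
        (hg.trans (by linarith [(hf x hx i).2]))
      have h3 : |q' i| ≤ |deriv (ph n) (x i)| + |deriv (ph n) (l i - x i)| := by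
        refine (abs_add_le _ _).trans ?_
        apply add_le_add
        · rw [abs_mul, abs_of_nonneg (ph_nonneg n (l i - x i))]
          exact mul_le_of_le_one_right (abs_nonneg _) (ph_le_one _ _)
        · rw [abs_mul, abs_mul, abs_neg, abs_one, mul_one, abs_of_nonneg (ph_nonneg n (x i))]
          exact mul_le_of_le_one_left (abs_nonneg _) (ph_le_one _ _)
      have h4 := mul_le_mul_of_nonneg_left h3 (abs_nonneg g)
      linarith
    have hterm : ∀ i : Fin N, |g| * ‖(∏ j ∈ Finset.univ.erase i, qf n (l j) (x j)) •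
        (q' i • (EuclideanSpace.proj i : E N →L[ℝ] ℝ))‖ ≤ 2 * ((C + 1) * K) := by
      intro i
      rw [norm_smul, norm_smul, Real.norm_eq_abs, Real.norm_eq_abs]
      have h1 : |∏ j ∈ Finset.univ.erase i, qf n (l j) (x j)| ≤ 1 := by
        rw [abs_of_nonneg (Finset.prod_nonneg fun j _ => qf_nonneg _ _ _)]
        exact Finset.prod_le_one (fun j _ => qf_nonneg _ _ _) fun j _ => qf_le_one _ _ _
      have h2 : |q' i| * ‖(EuclideanSpace.proj i : E N →L[ℝ] ℝ)‖ ≤ |q' i| :=
        mul_le_of_le_one_right (abs_nonneg _) (hpn i)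
      have h3 : |∏ j ∈ Finset.univ.erase i, qf n (l j) (x j)| *
          (|q' i| * ‖(EuclideanSpace.proj i : E N →L[ℝ] ℝ)‖) ≤ |q' i| :=
        (mul_le_of_le_one_left (by positivity) h1).trans h2
      exact (mul_le_mul_of_nonneg_left h3 (abs_nonneg g)).trans (hqb i)
    calc |g| * ‖∑ i, (∏ j ∈ Finset.univ.erase i, qf n (l j) (x j)) •
          (q' i • (EuclideanSpace.proj i : E N →L[ℝ] ℝ))‖
        ≤ |g| * ∑ i, ‖(∏ j ∈ Finset.univ.erase i, qf n (l j) (x j)) •
          (q' i • (EuclideanSpace.proj i : E N →L[ℝ] ℝ))‖ :=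
          mul_le_mul_of_nonneg_left (norm_sum_le _ _) (abs_nonneg g)
      _ = ∑ i, |g| * ‖(∏ j ∈ Finset.univ.erase i, qf n (l j) (x j)) •
          (q' i • (EuclideanSpace.proj i : E N →L[ℝ] ℝ))‖ := Finset.mul_sum _ _ _
      _ ≤ ∑ _i : Fin N, 2 * ((C + 1) * K) := Finset.sum_le_sum fun i _ => hterm i
      _ = N * (2 * ((C + 1) * K)) := by
          rw [Finset.sum_const, Finset.card_univ, Fintype.card_fin, nsmul_eq_mul]

end

end Pool.Agent.BXS.H6
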